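import Pool.Agent.R799.WallSplit

/-!
# A knot monodromy whose cohomology ring does not split

The invariants below are those of a closed simply connected spin `6`-manifold `M` with
`H²(M) = ℤ³` and `H³(M) = 0`, and of the monodromy of a fibred `5`-knot with fibre `M` minus a disc.
-/

namespace Pool.Agent.Results.MP_66d375_gt.NonSplitFibre

open Pool.Agent.R799

/-- There are Wall invariants with `H³ = 0` and a knot monodromy preserving them such that the
rational cohomology ring has no splitting into two complementary invariant self-annihilating
subrings. -/
theorem result : ∃ (W : WallSystem 3) (A : Matrix (Fin 3) (Fin 3) ℤ),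
    IsKnotMonodromy W A ∧ ¬ SplitsRationally W.cup A :=
  ⟨exW, mulTheta, exMonodromy, not_splits⟩

end Pool.Agent.Results.MP_66d375_gt.NonSplitFibre
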